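import Mathlib

/-!
# Theorem E, basic definitions (chapters 0, 1, 2 of Paper.md)

Finite probability, kernels as matrices, the core statement.
-/

namespace Pool.Agent.Lib.MP_688fd0_co.TE

open scoped Classical in
/-- Indicator of a proposition, with real values. -/
noncomputable def ind (p : Prop) : ℝ := if p then 1 else 0

theorem ind_of {p : Prop} (h : p) : ind p = 1 := if_pos h
theorem ind_not {p : Prop} (h : ¬ p) : ind p = 0 := if_neg h
theorem ind_nonneg (p : Prop) : 0 ≤ ind p := by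
  unfold ind; split <;> norm_num
theorem ind_le_one (p : Prop) : ind p ≤ 1 := by
  unfold ind; split <;> norm_num
theorem ind_mono {p q : Prop} (h : p → q) : ind p ≤ ind q := by
  by_cases hp : p
  · rw [ind_of hp, ind_of (h hp)]
  · rw [ind_not hp]; exact ind_nonneg q
theorem ind_and (p q : Prop) : ind (p ∧ q) = ind p * ind q := by
  by_cases hp : p <;> by_cases hq : q <;> simp [ind, hp, hq]
theorem ind_mul_self (p : Prop) : ind p * ind p = ind p := by
  by_cases hp : p <;> simp [ind, hp]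

/-! ### Finite probability -/

section prob

/-- Expectation of `f` with respect to the weights `μ`. -/
noncomputable def Ex {Ω : Type*} [Fintype Ω] (μ : Ω → ℝ) (f : Ω → ℝ) : ℝ := ∑ ω, μ ω * f ω

/-- Probability of the event `E`. -/
noncomputable def Pr {Ω : Type*} [Fintype Ω] (μ : Ω → ℝ) (E : Ω → Prop) : ℝ :=
  ∑ ω, μ ω * ind (E ω)

/-- `μ` is a probability weight. -/
structure IsPr {Ω : Type*} [Fintype Ω] (μ : Ω → ℝ) : Prop where
  nn : ∀ ω, 0 ≤ μ ω
  one : ∑ ω, μ ω = 1

/-- Product weights. -/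
noncomputable def piW {ι : Type*} [Fintype ι] {α : ι → Type*} (μ : ∀ i, α i → ℝ) :
    (∀ i, α i) → ℝ := fun ω => ∏ i, μ i (ω i)

end prob

/-! ### Kernels -/

section kernels

variable {G : Type*} [Group G] [Fintype G] [DecidableEq G]

/-- The kernel of the uniform measure on `S`. -/
noncomputable def UM (S : Finset G) : Matrix G G ℝ := fun x y => ind (x⁻¹ * y ∈ S) / (S.card : ℝ)

/-- The kernel of the measure `w_τ` (`false` is kind 0, `true` is kind 1). -/
noncomputable def WM (B C : Finset G) (τ : Bool) : Matrix G G ℝ :=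
  if τ then (1 / 2 : ℝ) • (UM B + UM C) else UM B

/-- The kernel of the block `S_τ = β * w_τ * β`. -/
noncomputable def SM (B C : Finset G) (τ : Bool) : Matrix G G ℝ := UM B * WM B C τ * UM B

/-- `q_τ(j)`. -/
noncomputable def qf (B C : Finset G) (τ : Bool) (j : ℕ) : ℝ := (SM B C τ ^ (2 * j)) 1 1

/-- Left invariant matrices. -/
def Inv (M : Matrix G G ℝ) : Prop := ∀ g x y, M (g * x) (g * y) = M x y

/-- Nonnegative matrices. -/
def NN (M : Matrix G G ℝ) : Prop := ∀ x y, 0 ≤ M x y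

/-- Matrices with all row sums and column sums one. -/
structure DS (M : Matrix G G ℝ) : Prop where
  nn : ∀ x y, 0 ≤ M x y
  row : ∀ x, ∑ y, M x y = 1
  col : ∀ y, ∑ x, M x y = 1

/-- The alphabet `L_τ`. -/
def Lt (B C : Finset G) (τ : Bool) : Finset G := if τ then B ∪ C else B

/-- `g` is a product of `j` letters of `L`. -/
def word (L : Finset G) (j : ℕ) (g : G) : Prop :=
  ∃ l : List G, l.length = j ∧ (∀ s ∈ l, s ∈ L) ∧ l.prod = g

/-- `g` is a product of an odd number of at most `N` letters. -/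
def oddW (L : Finset G) (N : ℕ) (g : G) : Prop := ∃ j, Odd j ∧ j ≤ N ∧ word L j g

/-- `g` is a product of an even number of at most `N` letters. -/
def evenW (L : Finset G) (N : ℕ) (g : G) : Prop := ∃ j, Even j ∧ j ≤ N ∧ word L j g

/-- `r1(s)`, see (1.6). -/
noncomputable def r1 (B C : Finset G) (τ : Bool) (k : ℕ) (s : G) : ℝ :=
  (WM B C τ * UM B * SM B C τ ^ (2 * k - 1)) s 1 / qf B C τ k

/-- `r2(s)`, see (1.6). -/
noncomputable def r2 (B C : Finset G) (τ : Bool) (k : ℕ) (s : G) : ℝ :=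
  (UM B * SM B C τ ^ (2 * k - 1) * UM B) s 1 / qf B C τ k

/-- Symmetric nonempty finite set. -/
structure Sy (S : Finset G) : Prop where
  ne : S.Nonempty
  inv : ∀ s ∈ S, s⁻¹ ∈ S

/-- The product of the kernels `c (i+1), ..., c (i+n)`. -/
noncomputable def Kn (c : ℕ → Matrix G G ℝ) (i : ℕ) : ℕ → Matrix G G ℝ
  | 0 => 1
  | n + 1 => Kn c i n * c (i + n + 1)

/-- The odd pattern: letter `p` (`p ≥ 1`) has the kernel `w_τ` if `3 ∣ p` and `β` otherwise. -/
noncomputable def cO (B C : Finset G) (τ : Bool) (p : ℕ) : Matrix G G ℝ :=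
  if 3 ∣ p then WM B C τ else UM B

/-- The even pattern. -/
noncomputable def cE (B C : Finset G) (τ : Bool) (p : ℕ) : Matrix G G ℝ := cO B C τ (p + 1)

/-- The context: everything that chapter 1 gives. `X` is the basic large number, `k` the length
parameter, `T` the number of colours, `B` the maximiser, `C` the small generating set. -/
structure Ctx (G : Type*) [Group G] [Fintype G] [DecidableEq G] where
  X : ℝ
  k : ℕ
  T : ℕ
  r0 : ℕ
  B : Finset G
  C : Finset G
  hT1 : 1 ≤ T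
  hk1 : 1 ≤ k
  hr1 : 1 ≤ r0
  hX : ((10 ^ 6 * T * k * (r0 + 1) : ℕ) : ℝ) ^ 200 ≤ X
  hlog : Real.log (Fintype.card G) ≤ k
  hT : (Fintype.card G : ℝ) ^ 20 ≤ X ^ (3 * T)
  hr0 : (Fintype.card G : ℝ) ^ 2 ≤ X ^ (50000 * r0)
  hdiv : ∃ k', k = 32 * (r0 + 1) * k'
  hBX : X ^ 200000 ≤ B.card
  hB : Sy B
  hC : Sy C
  hB1 : (1 : G) ∉ B
  hC1 : (1 : G) ∉ C
  hCc : C.card ≤ k
  hCgen : Subgroup.closure (C : Set G) = ⊤
  hq : ∀ τ, 1 / (Fintype.card G : ℝ) ≤ qf B C τ k
  hsup : ∀ τ u x y, k ≤ 8 * (r0 + 1) * u → (SM B C τ ^ u) x y ≤ X * qf B C τ k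
  harE : ∀ τ x y, evenW (Lt B C τ) 100 (x⁻¹ * y) →
    (9 / 10 : ℝ) * qf B C τ k ≤ (SM B C τ ^ (2 * k)) x y
  harO : ∀ τ x y, oddW (Lt B C τ) 100 (x⁻¹ * y) →
    (9 / 10 : ℝ) * qf B C τ k ≤ (UM B * SM B C τ ^ (2 * k)) x y

end kernels

end Pool.Agent.Lib.MP_688fd0_co.TE
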