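import Pool.Agent.Lib.MP_688fd0_co.TE.Iface3

/-!
# Theorem E, the selection lemma (used in 4.3 for the gadgets and in 7.3 for the rounds)

`P` = the choosers (labels in chapter 4, pickers in chapter 7), `O` = the outcomes of one option,
`D` = the objects (vertices, R-edges) which an option touches. Every chooser draws `T` independent
options. `w i` are the test functions.
-/

namespace Pool.Agent.Lib.MP_688fd0_co.TE

universe u v w

/-- Weight of an option for a test function. -/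
noncomputable def wtO {O : Type*} {D : Type*} (touch : O → Finset D) (w : D → ℝ) (o : O) : ℝ :=
  ∑ d ∈ touch o, w d

/-- SELECT: the selection lemma. -/
def SELECT_S : Prop :=
  ∀ (P : Type u) [Fintype P] [DecidableEq P] (O : Type v) [Fintype O] (D : Type w)
    [DecidableEq D] (ι : Type w) [Fintype ι] (T : ℕ)
    (π : P → O → ℝ) (touch : O → Finset D) (bad : P → O → Prop) (wf : ι → D → ℝ)
    (m M : ι → ℝ) (jt : P → ι) (δ ε : ℝ),
    (∀ p, IsPr (π p)) → 0 ≤ ε → 0 ≤ δ → 1 ≤ T →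
    (∀ i d, 0 ≤ wf i d) → (∀ i, 0 < M i) → (∀ i, 0 < m i) →
    (∀ i p o, π p o ≠ 0 → wtO touch (wf i) o ≤ M i) →
    (∀ i, (T : ℝ) * ∑ p, Ex (π p) (wtO touch (wf i)) ≤ m i) →
    (∀ i, Real.exp (-(m i / (4 * (T * M i)))) ≤ δ) →
    (∀ p d, Pr (π p) (fun o => d ∈ touch o) ≤ wf (jt p) d) →
    (∀ p, Pr (π p) (bad p) + 2 * m (jt p) ≤ ε) →
    (Fintype.card ι : ℝ) * δ + (Fintype.card P : ℝ) * ε ^ T < 1 →
    ∃ ω : P → Fin T → O, (∀ p t, π p (ω p t) ≠ 0) ∧
      (∀ i, ∑ p, ∑ t, wtO touch (wf i) (ω p t) ≤ 2 * m i) ∧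
      (∀ p, ∃ t, ¬ bad p (ω p t) ∧
        ∀ p', p' ≠ p → ∀ t', Disjoint (touch (ω p t)) (touch (ω p' t')))

end Pool.Agent.Lib.MP_688fd0_co.TE
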