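import Pool.Agent.Lib.MP_688fd0_co.TE.Defs

/-!
# Theorem E, statements of the modules of part 1 (probability, chapter 1, chapter 2)

Every module proves one of the propositions below. Universe levels are explicit.
-/

namespace Pool.Agent.Lib.MP_688fd0_co.TE

universe u v w

/-! ### Probability (chapter 0) -/

/-- PIPR: a product of probability weights is a probability weight; expectation of a product of
functions of single coordinates. -/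
def PIPR_S : Prop :=
  (∀ (ι : Type u) [Fintype ι] [DecidableEq ι] (α : ι → Type v) [∀ i, Fintype (α i)]
    (μ : ∀ i, α i → ℝ), (∀ i, IsPr (μ i)) → IsPr (piW μ)) ∧
  (∀ (ι : Type u) [Fintype ι] [DecidableEq ι] (α : ι → Type v) [∀ i, Fintype (α i)]
    (μ : ∀ i, α i → ℝ) (f : ∀ i, α i → ℝ),
    Ex (piW μ) (fun ω => ∏ i, f i (ω i)) = ∏ i, Ex (μ i) (f i))

/-- UPD: conditioning on all coordinates but one. -/
def UPD_S : Prop :=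
  (∀ (ι : Type u) [Fintype ι] [DecidableEq ι] (α : ι → Type v) [∀ i, Fintype (α i)]
    (μ : ∀ i, α i → ℝ), (∀ i, IsPr (μ i)) → ∀ (F : (∀ i, α i) → ℝ) (i : ι),
    Ex (piW μ) F = Ex (piW μ) (fun ω => Ex (μ i) (fun a => F (Function.update ω i a)))) ∧
  (∀ (ι : Type u) [Fintype ι] [DecidableEq ι] (α : ι → Type v) [∀ i, Fintype (α i)]
    (μ : ∀ i, α i → ℝ), (∀ i, IsPr (μ i)) → ∀ (E : (∀ i, α i) → Prop) (i : ι) (p : ℝ),
    (∀ ω, Pr (μ i) (fun a => E (Function.update ω i a)) ≤ p) → Pr (piW μ) E ≤ p)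

/-- CHERN: upper tail (0.3). -/
def CHERN_S : Prop :=
  ∀ (ι : Type u) [Fintype ι] [DecidableEq ι] (α : ι → Type v) [∀ i, Fintype (α i)]
    (μ : ∀ i, α i → ℝ), (∀ i, IsPr (μ i)) → ∀ (f : ∀ i, α i → ℝ) (M m d : ℝ), 0 < M → 0 < d →
    (∀ i a, 0 ≤ f i a) → (∀ i a, f i a ≤ M) → ∑ i, Ex (μ i) (f i) ≤ m → d ≤ 2 * m →
    Pr (piW μ) (fun ω => m + d ≤ ∑ i, f i (ω i)) ≤ Real.exp (-(d ^ 2 / (4 * m * M)))

/-- MCD: bounded differences (0.4). -/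
def MCD_S : Prop :=
  ∀ (ι : Type u) [Fintype ι] [DecidableEq ι] (α : ι → Type v) [∀ i, Fintype (α i)]
    (μ : ∀ i, α i → ℝ), (∀ i, IsPr (μ i)) → ∀ (F : (∀ i, α i) → ℝ) (D : ι → ℝ) (V d : ℝ),
    (∀ ω i a, |F (Function.update ω i a) - F ω| ≤ D i) → ∑ i, D i ^ 2 ≤ V → 0 < V → 0 < d →
    Pr (piW μ) (fun ω => d ≤ |F ω - Ex (piW μ) F|) ≤ 2 * Real.exp (-(d ^ 2 / (2 * V)))

/-- SEQ: if whatever the past colours are, the conditional probability of a bad colour is at most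
`p`, then all `T` colours are bad with probability at most `p ^ T`. -/
def SEQ_S : Prop :=
  ∀ (T : ℕ) (Ω : Type u) [Fintype Ω] (μ : Ω → ℝ), IsPr μ →
    ∀ (E : Fin T → (Fin T → Ω) → Prop) (p : ℝ), 0 ≤ p →
    (∀ t ω ω', (∀ s, s ≤ t → ω s = ω' s) → (E t ω ↔ E t ω')) →
    (∀ t ω, Pr μ (fun a => E t (Function.update ω t a)) ≤ p) →
    Pr (piW (fun _ : Fin T => μ)) (fun ω => ∀ t, E t ω) ≤ p ^ T

/-- BASIC: elementary facts on `Ex` and `Pr`: union bound, monotonicity, Markov, Chebyshev,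
existence of a good outcome. -/
def BASIC_S : Prop :=
  ∀ (Ω : Type u) [Fintype Ω] (μ : Ω → ℝ), IsPr μ →
    (∀ E F : Ω → Prop, (∀ ω, E ω → F ω) → Pr μ E ≤ Pr μ F) ∧
    (∀ (κ : Type v) [Fintype κ] (E : κ → Ω → Prop), Pr μ (fun ω => ∃ i, E i ω) ≤ ∑ i, Pr μ (E i)) ∧
    (∀ (f : Ω → ℝ) (c : ℝ), (∀ ω, 0 ≤ f ω) → 0 < c → Pr μ (fun ω => c ≤ f ω) ≤ Ex μ f / c) ∧
    (∀ (f : Ω → ℝ) (c : ℝ), 0 < c →
      Pr μ (fun ω => f ω ≤ Ex μ f - c) ≤ (Ex μ (fun ω => f ω ^ 2) - Ex μ f ^ 2) / c ^ 2) ∧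
    (∀ E : Ω → Prop, Pr μ E < 1 → ∃ ω, 0 < μ ω ∧ ¬ E ω) ∧
    (∀ E : Ω → Prop, 0 ≤ Pr μ E ∧ Pr μ E ≤ 1)

/-- PUSH: a function of the coordinates of blocks: if the random variables `X i` are functions of
the block `i` with law `ν i`, then `(X i)_i` has law `piW ν`. -/
def PUSH_S : Prop :=
  ∀ (ι : Type u) [Fintype ι] [DecidableEq ι] (α β : ι → Type v) [∀ i, Fintype (α i)]
    [∀ i, Fintype (β i)] (μ : ∀ i, α i → ℝ) (ν : ∀ i, β i → ℝ) (X : ∀ i, α i → β i),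
    (∀ i, IsPr (μ i)) → (∀ i b, Pr (μ i) (fun a => X i a = b) = ν i b) →
    ∀ F : (∀ i, β i) → ℝ, Ex (piW μ) (fun ω => F (fun i => X i (ω i))) = Ex (piW ν) F

/-- CURRY: a product over pairs is a product of products. -/
def CURRY_S : Prop :=
  ∀ (ι : Type u) [Fintype ι] [DecidableEq ι] (κ : Type v) [Fintype κ] [DecidableEq κ]
    (α : Type w) [Fintype α] (μ : ι → κ → α → ℝ) (F : (ι → κ → α) → ℝ),
    Ex (piW (fun p : ι × κ => μ p.1 p.2)) (fun ω => F (fun i j => ω (i, j))) =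
      Ex (piW (fun i => piW (μ i))) F

/-! ### Chapter 1 -/

/-- MAT: basic facts on kernels. -/
def MAT_S : Prop :=
  ∀ (G : Type u) [Group G] [Fintype G] [DecidableEq G],
    (∀ S : Finset G, Sy S → DS (UM S) ∧ Inv (UM S) ∧ (UM S).transpose = UM S) ∧
    (∀ M N : Matrix G G ℝ, DS M → DS N → DS (M * N)) ∧
    (∀ M N : Matrix G G ℝ, Inv M → Inv N → Inv (M * N)) ∧
    (∀ M N : Matrix G G ℝ, NN M → NN N → NN (M * N)) ∧
    (∀ M M' N N' : Matrix G G ℝ, NN M → NN N → (∀ x y, M x y ≤ M' x y) →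
      (∀ x y, N x y ≤ N' x y) → ∀ x y, (M * N) x y ≤ (M' * N') x y) ∧
    (∀ M N : Matrix G G ℝ, Inv M → Inv N → (M * N) 1 1 = (N * M) 1 1) ∧
    (∀ M N : Matrix G G ℝ, ∀ c : ℝ, DS M → (∀ x y, N x y ≤ c) →
      ∀ x y, (M * N) x y ≤ c ∧ (N * M) x y ≤ c) ∧
    (∀ S : Finset G, Sy S → ∀ x y, UM S x y ≤ 1 / (S.card : ℝ))

/-- LOGC: (1.1) for a symmetric invariant doubly stochastic kernel. -/
def LOGC_S : Prop :=
  ∀ (G : Type u) [Group G] [Fintype G] [DecidableEq G] (S : Matrix G G ℝ), DS S → Inv S →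
    S.transpose = S →
    (∀ j : ℕ, 1 / (Fintype.card G : ℝ) ≤ (S ^ (2 * j)) 1 1) ∧
    (∀ i j : ℕ, i ≤ j → (S ^ (2 * j)) 1 1 ≤ (S ^ (2 * i)) 1 1) ∧
    (∀ j : ℕ, 1 ≤ j → (S ^ (2 * (j - 1))) 1 1 ≤
      Real.exp (Real.log (Fintype.card G) / j) * (S ^ (2 * j)) 1 1) ∧
    (∀ (j : ℕ) x y, (S ^ (2 * j)) x y ≤ (S ^ (2 * j)) 1 1) ∧
    (∀ (j : ℕ) x y, (S ^ (2 * j + 1)) x y ≤ (S ^ (2 * j)) 1 1)

/-- RUP: upper bounds for `r1`, `r2` and the average of `r2` (1.6), and (1.8). -/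
def RUP_S : Prop :=
  ∀ (G : Type u) [Group G] [Fintype G] [DecidableEq G] (B C : Finset G), Sy B → Sy C →
    ∀ (τ : Bool) (k : ℕ), 1 ≤ k → Real.log (Fintype.card G) ≤ k →
    (∀ s, 0 ≤ r1 B C τ k s ∧ r1 B C τ k s ≤ 1 + Real.log (Fintype.card G) / k) ∧
    (∀ s, 0 ≤ r2 B C τ k s ∧ r2 B C τ k s ≤ 1 + Real.log (Fintype.card G) / k) ∧
    (∑ s, WM B C τ 1 s * r2 B C τ k s = 1) ∧
    (τ = true → ∀ t ∈ C, 1 - 2 * C.card * (Real.log (Fintype.card G) / k) ≤ r2 B C τ k t)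

/-- TYP: Lemma (1.7). -/
def TYP_S : Prop :=
  ∀ (G : Type u) [Group G] [Fintype G] [DecidableEq G] (B C : Finset G), Sy B → Sy C →
    ∀ (k : ℕ) (κ : ℝ), 1 ≤ k → 100 * Real.log (Fintype.card G) ≤ k → 0 ≤ κ → 100 * κ ≤ k →
    1 ≤ Real.log (Fintype.card G) →
    (10 ^ 6 * (k : ℝ) ^ 3 ≤ B.card) →
    (∀ B' ⊆ B, Sy B' → (B'.card : ℝ) ^ κ * qf B' C false k * qf B' C true k ≤
      (B.card : ℝ) ^ κ * qf B C false k * qf B C true k) →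
    ∀ τ, ∀ s ∈ B, 1 - 40 * (Real.log (Fintype.card G) + κ) / k ≤ r1 B C τ k s ∧
      1 - 40 * (Real.log (Fintype.card G) + κ) / k ≤ r2 B C τ k s

/-- HAR: (1.9), (1.10). -/
def HAR_S : Prop :=
  ∀ (G : Type u) [Group G] [Fintype G] [DecidableEq G] (B C : Finset G), Sy B → Sy C →
    ∀ (τ : Bool) (k : ℕ) (e : ℝ), 1 ≤ k → 0 ≤ e → e ≤ 1 / 10 ^ 8 →
    Real.log (Fintype.card G) / k ≤ e →
    (∀ s ∈ B, 1 - e ≤ r1 B C τ k s ∧ 1 - e ≤ r2 B C τ k s) →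
    (τ = true → ∀ t ∈ C, 1 - e ≤ r2 B C τ k t) →
    (∀ x y, evenW (Lt B C τ) 100 (x⁻¹ * y) →
      (9 / 10 : ℝ) * qf B C τ k ≤ (SM B C τ ^ (2 * k)) x y) ∧
    (∀ x y, oddW (Lt B C τ) 100 (x⁻¹ * y) →
      (9 / 10 : ℝ) * qf B C τ k ≤ (UM B * SM B C τ ^ (2 * k)) x y)

/-- GEN: a small generating set. -/
def GEN_S : Prop :=
  ∀ (G : Type u) [Group G] [Fintype G] [DecidableEq G] (A : Finset G), (∀ s ∈ A, s⁻¹ ∈ A) →
    Subgroup.closure (A : Set G) = ⊤ → 1 < Fintype.card G →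
    ∃ C ⊆ A, Sy C ∧ Subgroup.closure (C : Set G) = ⊤ ∧
      (C.card : ℝ) ≤ 3 * Real.log (Fintype.card G)

/-- CHOICE: the choice of `k` and `B` ((1.3), (1.4), (1.5)); `K` is the exponent of `k`. -/
def CHOICE_S : Prop :=
  ∀ (G : Type u) [Group G] [Fintype G] [DecidableEq G] (A C : Finset G), Sy A → Sy C →
    ∀ (c D : ℝ) (k0 Θ I : ℕ), 0 < c → c ≤ 1 → 1 ≤ D → 2 ≤ Θ → 1 ≤ k0 →
    (4 / c + 2) * D ≤ I → 2 ≤ Fintype.card G →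
    (Fintype.card G : ℝ) ^ c ≤ A.card →
    ∃ (i : ℕ) (B : Finset G), 1 ≤ i ∧ i ≤ I ∧ B ⊆ A ∧ Sy B ∧
      (Fintype.card G : ℝ) ^ (c / 2) ≤ B.card ∧
      (∀ τ, qf B C τ (Θ ^ (i - 1) * k0) ≤
        (Fintype.card G : ℝ) ^ (1 / D) * qf B C τ (Θ ^ i * k0)) ∧
      (∀ B' ⊆ A, Sy B' → (B'.card : ℝ) ^ (4 / c + 2) * qf B' C false (Θ ^ i * k0) *
          qf B' C true (Θ ^ i * k0) ≤
        (B.card : ℝ) ^ (4 / c + 2) * qf B C false (Θ ^ i * k0) * qf B C true (Θ ^ i * k0))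

/-- CORE: existence of the context. -/
def CORE_S : Prop :=
  ∀ c : ℝ, 0 < c → c ≤ 1 → ∃ n0 : ℕ, ∀ (G : Type u) [Group G] [Fintype G] [DecidableEq G]
    (A : Finset G), n0 ≤ Fintype.card G → (∀ s ∈ A, s⁻¹ ∈ A) → (1 : G) ∉ A →
    Subgroup.closure (A : Set G) = ⊤ → (Fintype.card G : ℝ) ^ c ≤ A.card →
    ∃ c : Ctx G, c.B ⊆ A ∧ c.C ⊆ A

end Pool.Agent.Lib.MP_688fd0_co.TE
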