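import Pool.Agent.Lib.MP_688fd0_co.TE.Iface1

/-!
# Theorem E, statements of the modules of chapter 2 (kernels and deterministic links)
-/

namespace Pool.Agent.Lib.MP_688fd0_co.TE

universe u

section defs

variable {G : Type*} [Group G] [Fintype G] [DecidableEq G]

/-- `q_τ`. -/
noncomputable def Ctx.q (c : Ctx G) (τ : Bool) : ℝ := qf c.B c.C τ c.k

/-- `b = |B|`. -/
noncomputable def Ctx.b (c : Ctx G) : ℝ := (c.B.card : ℝ)

/-- `l0`, see (2.2). -/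
def Ctx.L0 (c : Ctx G) : ℕ := 12 * (c.k / (32 * (c.r0 + 1))) + 4

/-- The pattern (odd if `par = true`). -/
noncomputable def Ctx.cc (c : Ctx G) (τ par : Bool) : ℕ → Matrix G G ℝ :=
  if par then cO c.B c.C τ else cE c.B c.C τ

/-- The length of the pattern. -/
def Ctx.len (c : Ctx G) (par : Bool) : ℕ := if par then 6 * c.k + 1 else 6 * c.k

/-- The kernel `K_{i,i+n}`. -/
noncomputable def Ctx.K (c : Ctx G) (τ par : Bool) (i n : ℕ) : Matrix G G ℝ :=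
  Kn (c.cc τ par) i n

/-- Admissible pairs: joined by a word of the right parity of length at most `N`. -/
def Ctx.adm (c : Ctx G) (τ par : Bool) (N : ℕ) (x y : G) : Prop :=
  if par then oddW (Lt c.B c.C τ) N (x⁻¹ * y) else evenW (Lt c.B c.C τ) N (x⁻¹ * y)

/-- Probability that the link walk from `x` to `y` has `z_j = v`, `z_{j+1} = v'`. -/
noncomputable def Ctx.U (c : Ctx G) (τ par : Bool) (x y : G) (j : ℕ) (v v' : G) : ℝ :=
  c.K τ par 0 j x v * c.cc τ par (j + 1) v v' * c.K τ par (j + 1) (c.len par - 1 - j) v' y /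
    c.K τ par 0 (c.len par) x y

/-- The law of the link walk. -/
noncomputable def Ctx.WL (c : Ctx G) (τ par : Bool) (x y : G) (z : Fin (c.len par + 1) → G) : ℝ :=
  ind (z 0 = x ∧ z (Fin.last _) = y) *
    (∏ i : Fin (c.len par), c.cc τ par (i + 1) (z i.castSucc) (z i.succ)) /
    c.K τ par 0 (c.len par) x y

end defs

/-- KER: the kernels of chapter 2. -/
def KER_S : Prop :=
  ∀ (G : Type u) [Group G] [Fintype G] [DecidableEq G] (c : Ctx G) (τ par : Bool),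
    (∀ i n, DS (c.K τ par i n) ∧ Inv (c.K τ par i n)) ∧
    (∀ i m n, c.K τ par i (m + n) = c.K τ par i m * c.K τ par (i + m) n) ∧
    (∀ i n x y, 2 ≤ n → c.K τ par i n x y ≤ 1 / c.b) ∧
    (∀ i n x y, c.L0 ≤ n → c.K τ par i n x y ≤ c.X * c.q τ) ∧
    (∀ n x y, 1 ≤ n → c.K τ par 0 n x y ≤ 1 / c.b) ∧
    (∀ i n x y, 1 ≤ n → i + n = c.len par → c.K τ par i n x y ≤ 1 / c.b) ∧
    (∀ p, c.cc τ par p = UM c.B ∨ c.cc τ par p = WM c.B c.C τ) ∧
    (∀ i, DS (c.cc τ par i)) ∧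
    (∀ x y, c.adm τ par 100 x y → (9 / 10 : ℝ) * c.q τ ≤ c.K τ par 0 (c.len par) x y) ∧
    c.K τ true 0 (6 * c.k + 1) = UM c.B * SM c.B c.C τ ^ (2 * c.k) ∧
    c.K τ false 0 (6 * c.k) = SM c.B c.C τ ^ (2 * c.k)

/-- NUM: numerical facts on the context used everywhere. -/
def NUM_S : Prop :=
  ∀ (G : Type u) [Group G] [Fintype G] [DecidableEq G] (c : Ctx G),
    (10 ^ 6 : ℝ) ≤ c.X ∧ (10 ^ 6 * c.k : ℝ) ^ 200 ≤ c.X ∧ (10 ^ 6 * c.T : ℝ) ^ 200 ≤ c.X ∧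
    6 * (c.r0 + 1) * c.L0 ≤ 3 * c.k ∧ Even c.k ∧ 32 ≤ c.k ∧
    (∀ τ, 0 < c.q τ) ∧ 0 < c.b ∧ c.X ^ 200000 ≤ c.b ∧ c.b ≤ Fintype.card G ∧
    (∀ τ, c.q τ ≤ 1 / c.b) ∧
    (Fintype.card G : ℝ) ^ 20 ≤ c.X ^ (3 * c.T) ∧
    (∀ m : ℝ, c.X ≤ m → Real.exp (-m) * (Fintype.card G : ℝ) ^ 40 ≤ 1) ∧
    (Subgroup.closure (c.C : Set G) = ⊤)

/-- TELE: exact telescoping along a link, for arbitrary kernels. -/
def TELE_S : Prop :=
  ∀ (G : Type u) [Fintype G] [DecidableEq G] (cc : ℕ → Matrix G G ℝ) (n : ℕ) (x y : G)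
    (F : ℕ → G → ℝ), Kn cc 0 n x y ≠ 0 →
    F 0 x - F n y = ∑ j ∈ Finset.range n, ∑ v, ∑ v',
      Kn cc 0 j x v * cc (j + 1) v v' * Kn cc (j + 1) (n - 1 - j) v' y / Kn cc 0 n x y *
        (F j v - F (j + 1) v')

/-- UBD: bounds (2.3) for link walks in kernel form. -/
def UBD_S : Prop :=
  ∀ (G : Type u) [Group G] [Fintype G] [DecidableEq G] (c : Ctx G) (τ par : Bool) (x y : G),
    c.adm τ par 100 x y →
    (∀ j v v', j < c.len par → 0 ≤ c.U τ par x y j v v') ∧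
    (∀ j, j < c.len par → ∑ v, ∑ v', c.U τ par x y j v v' = 1) ∧
    (∀ j v v', j + 1 ≤ 4 * c.k →
      c.U τ par x y j v v' ≤ 2 * c.X * c.K τ par 0 j x v * c.cc τ par (j + 1) v v') ∧
    (∀ j v v', 2 * c.k ≤ j → j < c.len par →
      c.U τ par x y j v v' ≤ 2 * c.X * c.cc τ par (j + 1) v v' *
        c.K τ par (j + 1) (c.len par - 1 - j) v' y)

/-- WLK: the law of the link walk as a law on sequences; marginals; (2.3), (2.4), (2.5). -/
def WLK_S : Prop :=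
  ∀ (G : Type u) [Group G] [Fintype G] [DecidableEq G] (c : Ctx G) (τ par : Bool) (x y : G),
    c.adm τ par 100 x y →
    IsPr (c.WL τ par x y) ∧
    (∀ (j : ℕ) (hj : j < c.len par) (v v' : G),
      Pr (c.WL τ par x y) (fun z => z ⟨j, by omega⟩ = v ∧ z ⟨j + 1, by omega⟩ = v') =
        c.U τ par x y j v v') ∧
    (∀ (j : ℕ) (hj : j < c.len par + 1) (v : G),
      Pr (c.WL τ par x y) (fun z => z ⟨j, hj⟩ = v) =
        c.K τ par 0 j x v * c.K τ par j (c.len par - j) v y / c.K τ par 0 (c.len par) x y) ∧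
    (∀ (j : ℕ) (hj : j < c.len par + 1) (v : G), j ≤ 4 * c.k →
      Pr (c.WL τ par x y) (fun z => z ⟨j, hj⟩ = v) ≤ 2 * c.X * c.K τ par 0 j x v) ∧
    (∀ (j : ℕ) (hj : j < c.len par + 1) (v : G), 2 * c.k ≤ j →
      Pr (c.WL τ par x y) (fun z => z ⟨j, hj⟩ = v) ≤
        2 * c.X * c.K τ par j (c.len par - j) v y) ∧
    (∀ (j : ℕ) (hj : j < c.len par + 1) (v : G), 0 < j → j < c.len par →
      Pr (c.WL τ par x y) (fun z => z ⟨j, hj⟩ = v) ≤ 2 * c.X / c.b) ∧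
    (∀ (i j : ℕ) (hi : i < c.len par + 1) (hj : j < c.len par + 1), i < j →
      ¬ (i = 0 ∧ j = c.len par) →
      Pr (c.WL τ par x y) (fun z => z ⟨i, hi⟩ = z ⟨j, hj⟩) ≤ 2 * c.X / c.b)

/-- ADJ: the steps of a link walk with positive probability are letters. -/
def ADJ_S : Prop :=
  ∀ (G : Type u) [Group G] [Fintype G] [DecidableEq G] (c : Ctx G) (τ par : Bool) (x y : G)
    (z : Fin (c.len par + 1) → G), c.WL τ par x y z ≠ 0 →
    z 0 = x ∧ z (Fin.last _) = y ∧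
    (∀ i : Fin (c.len par), (z i.castSucc)⁻¹ * z i.succ ∈ Lt c.B c.C τ) ∧
    (∀ i : Fin (c.len par), c.cc τ par (i + 1) = UM c.B →
      (z i.castSucc)⁻¹ * z i.succ ∈ c.B)

end Pool.Agent.Lib.MP_688fd0_co.TE
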