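import Pool.Agent.Lib.MP_688fd0_co.TE.Iface2

/-!
# Theorem E, statements of the modules of chapter 3 (labelled walks)
-/

namespace Pool.Agent.Lib.MP_688fd0_co.TE

universe u v w

/-- The abstract model 3.0. Slots are `0, ..., a-1`; `C j` is the connecting kernel before slot `j`
(`C a` after the last slot); a site is a pair `(u, e)` of a vertex and a label. -/
structure LM (V : Type u) (Val : Type v) [Fintype V] [Fintype Val] (a : ℕ) where
  jc : ℕ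
  P : V → Val → ℝ
  ex : V → Val → V
  C : ℕ → V → V → ℝ
  kap : ℕ → V → Val → ℝ
  sp : ℕ → Prop
  H0 : ℝ
  b : ℝ
  pt : ℝ
  hjc : jc < a
  hb : 1 ≤ b
  hH0 : 1 ≤ H0
  hP0 : ∀ u e, 0 ≤ P u e
  hP1 : ∀ u, ∑ e, P u e ≤ 1
  hk0 : ∀ j u e, 0 ≤ kap j u e
  hkH : ∀ j u e, kap j u e ≤ H0 * P u e
  hk1 : ∀ j u, ∑ e, kap j u e ≤ 1
  hC0 : ∀ j u v, 0 ≤ C j u v
  hCr : ∀ j u, ∑ v, C j u v ≤ 1
  hCc : ∀ j v, ∑ u, C j u v ≤ 1
  hM : ∀ j v, ∑ u, ∑ e, kap j u e * C (j + 1) (ex u e) v ≤ 1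
  hpt : ∀ w, ∑ u, ∑ e, P u e * ind (u = w ∨ ex u e = w) ≤ pt
  hpt1 : pt ≤ 1
  hsp : ∀ j u v, sp j → C j u v ≤ 1 / b
  hsp0 : sp 0
  hspa : sp a
  hspc : sp jc
  hspc' : sp (jc + 1)
  hsp2 : ∀ j, j < a → sp j ∨ sp (j + 1)

/-- Iterated sums over lists of given length. -/
noncomputable def sumL {S : Type*} [Fintype S] : ℕ → (List S → ℝ) → ℝ
  | 0, F => F []
  | n + 1, F => ∑ s, sumL n (fun l => F (s :: l))

section defs

variable {V : Type u} {Val : Type v} [Fintype V] [Fintype Val] [DecidableEq V] {a : ℕ}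

/-- Path weight of the list of sites `l` placed at the slots `j, j+1, ...`, from `x` to `y`. -/
noncomputable def LM.pw (M : LM V Val a) : ℕ → V → List (V × Val) → V → ℝ
  | j, x, [], y => M.C j x y
  | j, x, s :: l, y => M.C j x s.1 * M.kap j s.1 s.2 * M.pw (j + 1) (M.ex s.1 s.2) l y

/-- Total weight of the walks through `r` slots starting with slot `j`. -/
noncomputable def LM.fk (M : LM V Val a) (j r : ℕ) (x y : V) : ℝ := sumL r (fun l => M.pw j x l y)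

/-- Fields of one colour. -/
abbrev Fld (a : ℕ) (V : Type u) (Val : Type v) : Type (max u v) := Fin a → V → Option Val

/-- The value of the field at slot `j`. -/
def val (ω : Fld a V Val) (j : ℕ) (u : V) : Option Val :=
  if h : j < a then ω ⟨j, h⟩ u else none

/-- The law of one field value. -/
noncomputable def optW {Val : Type v} [Fintype Val] (p : Val → ℝ) : Option Val → ℝ
  | none => 1 - ∑ e, p e
  | some e => p e

/-- The law of the fields of one colour. -/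
noncomputable def LM.law (M : LM V Val a) : Fld a V Val → ℝ :=
  piW (fun _ : Fin a => piW (fun u : V => optW (M.P u)))

/-- The label weight of the list `l` of sites at the slots `j, j+1, ...`: product of
`1[active]/P`. -/
noncomputable def LM.xw (M : LM V Val a) (ω : Fld a V Val) : ℕ → List (V × Val) → ℝ
  | _, [] => 1
  | j, s :: l => ind (val ω j s.1 = some s.2) / M.P s.1 s.2 * M.xw ω (j + 1) l

/-- The vertex `w` is touched by an active site. -/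
def LM.tch (M : LM V Val a) (ω : Fld a V Val) (w : V) : Prop :=
  ∃ j u e, val ω j u = some e ∧ (u = w ∨ M.ex u e = w)

/-- `z` is clean at colour `t`; `W` is the set of forbidden vertices (it includes `D_0`). -/
def LM.clean (M : LM V Val a) {T : ℕ} (ω : Fin T → Fld a V Val) (W : V → Prop) (t : Fin T) (x y : V)
    (z : List (V × Val)) : Prop :=
  ∀ i s, z[i]? = some s → ∀ w, (s.1 = w ∨ M.ex s.1 s.2 = w) →
    ¬ W w ∧ w ≠ x ∧ w ≠ y ∧ (∀ t' < t, ¬ M.tch (ω t') w) ∧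
    (∀ j u e, val (ω t) j u = some e → (u = w ∨ M.ex u e = w) → j = i ∧ (u, e) = s)

/-- `Z^X`: labelled weight of the half walks from `x` to the entry vertex `v` of the mid slot. -/
noncomputable def LM.ZX (M : LM V Val a) (ω : Fld a V Val) (x v : V) : ℝ :=
  sumL M.jc (fun l => M.pw 0 x l v * M.xw ω 0 l)

/-- `Z^Y`: labelled weight of the half walks from the exit vertex `v` of the mid slot to `y`. -/
noncomputable def LM.ZY (M : LM V Val a) (ω : Fld a V Val) (v y : V) : ℝ :=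
  sumL (a - M.jc - 1) (fun l => M.pw (M.jc + 1) v l y * M.xw ω (M.jc + 1) l)

/-- `z` is good at `t`: clean and both truncation conditions hold (`Λ = lam q`). -/
def LM.good (M : LM V Val a) {T : ℕ} (ω : Fin T → Fld a V Val) (W : V → Prop) (Λ : ℝ) (t : Fin T)
    (x y : V) (z : List (V × Val)) : Prop :=
  M.clean ω W t x y z ∧
    ∀ s, z[M.jc]? = some s → M.ZX (ω t) x s.1 ≤ Λ ∧ M.ZY (ω t) (M.ex s.1 s.2) y ≤ Λ

/-- Labelled weight of the good walks of colour `t`. -/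
noncomputable def LM.Zg (M : LM V Val a) {T : ℕ} (ω : Fin T → Fld a V Val) (W : V → Prop) (Λ : ℝ)
    (t : Fin T) (x y : V) : ℝ :=
  sumL a (fun z => M.pw 0 x z y * M.xw (ω t) 0 z * ind (M.good ω W Λ t x y z))

/-- Expectation of the product of the label weights of two lists (placed at the same slots). -/
noncomputable def LM.pf (M : LM V Val a) : List (V × Val) → List (V × Val) → ℝ
  | [], _ => 1
  | _ :: _, [] => 1
  | s :: l, s' :: l' =>
    (if s.1 = s'.1 then ind (s.2 = s'.2) / M.P s.1 s.2 else 1) * M.pf l l'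

/-- Upper bound for `pf`: product of `1 + 1[same site]/P`. -/
noncomputable def LM.pg (M : LM V Val a) : List (V × Val) → List (V × Val) → ℝ
  | [], _ => 1
  | _ :: _, [] => 1
  | s :: l, s' :: l' => (1 + ind (s = s') / M.P s.1 s.2) * M.pg l l'

/-- Label weight of one site. -/
noncomputable def LM.lw (M : LM V Val a) (ω : Fld a V Val) (j : ℕ) (u : V) (e : Val) : ℝ :=
  M.kap j u e * (ind (val ω j u = some e) / M.P u e)

/-- The operator `T_j`: functions of the entry vertex at slot `j` to functions of the entry vertex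
at slot `j+1`. -/
noncomputable def LM.Top (M : LM V Val a) (ω : Fld a V Val) (j : ℕ) (F : V → ℝ) : V → ℝ :=
  fun v => ∑ u, ∑ e, F u * M.lw ω j u e * M.C (j + 1) (M.ex u e) v

/-- `n` steps of `T` starting with the function `F` at slot `i`: a function of the entry vertex at
slot `i + n`. -/
noncomputable def LM.Fn (M : LM V Val a) (ω : Fld a V Val) (i : ℕ) (F : V → ℝ) : ℕ → V → ℝ
  | 0 => F
  | n + 1 => M.Top ω (i + n) (M.Fn ω i F n)

/-- The operator `T*_j`: functions of the exit vertex at slot `j` to functions of the exit vertex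
before slot `j`. -/
noncomputable def LM.Gop (M : LM V Val a) (ω : Fld a V Val) (j : ℕ) (F : V → ℝ) : V → ℝ :=
  fun v => ∑ u, ∑ e, M.C j v u * M.lw ω j u e * F (M.ex u e)

/-- `n` slots `j, ..., j+n-1` of `T*`, ending with the function `F`; a function of the exit vertex
before slot `j`. -/
noncomputable def LM.Gn (M : LM V Val a) (ω : Fld a V Val) (F : V → ℝ) : ℕ → ℕ → V → ℝ
  | 0, _ => F
  | n + 1, j => M.Gop ω j (M.Gn ω F n (j + 1))

/-- The transport law (3.6): a colour `t` is given. -/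
noncomputable def LM.R (M : LM V Val a) {T : ℕ} (ω : Fin T → Fld a V Val) (W : V → Prop) (Λ : ℝ)
    (t : Fin T) (x y : V) (z : List (V × Val)) : ℝ :=
  M.pw 0 x z y * M.xw (ω t) 0 z * ind (M.good ω W Λ t x y z) / M.Zg ω W Λ t x y

/-- The event of (3.5) for one colour. -/
def LM.massOK (M : LM V Val a) (X : ℝ) (ω : Fld a V Val) : Prop :=
  (∀ i n v, i + n ≤ a → (n = 0 ∨ M.sp (i + n)) → M.Fn ω i (fun _ => 1) n v ≤ 2) ∧
  (∀ i n v, i + n ≤ a → M.Fn ω i (fun _ => 1) n v ≤ 4 * M.H0 * X) ∧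
  (∀ i n v, i + n ≤ a → (n = 0 ∨ M.sp i) → M.Gn ω (fun _ => 1) n i v ≤ 2) ∧
  (∀ i n v, i + n ≤ a → M.Gn ω (fun _ => 1) n i v ≤ 4 * M.H0 * X)

/-- Sup bounds for the path kernels of the model (hypotheses in 3.1 and 3.2). -/
structure LM.SB (M : LM V Val a) (L0 r0 : ℕ) (Q : ℝ) : Prop where
  s1 : ∀ i r x y, i + r ≤ a → (1 ≤ r ∨ M.sp i) → M.fk i r x y ≤ 1 / M.b
  s2 : ∀ i r x y, i + r ≤ a → L0 ≤ r → M.fk i r x y ≤ Q
  s3 : (r0 + 2) * (L0 + 1) ≤ M.jc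
  s4 : (r0 + 2) * (L0 + 1) ≤ a - M.jc - 1

/-- Numerical assumptions. `n` is the number of vertices, `Q = X q`. -/
structure LM.NH (M : LM V Val a) (n : ℝ) (X q : ℝ) (r0 T : ℕ) : Prop where
  n1 : 1 ≤ n
  X1 : 10 ^ 6 ≤ X
  aX : (10 ^ 6 * (a + 1) : ℝ) ^ 20 ≤ X
  TX : (10 ^ 6 * T : ℝ) ^ 20 ≤ X
  T1 : 1 ≤ T
  q0 : 1 / n ≤ q
  q1 : q ≤ 1 / M.b
  bX : X ^ 200000 ≤ M.b
  bn : M.b ≤ n
  HX : M.H0 ≤ 2 * X ^ 3000
  r1 : n ^ 2 ≤ X ^ (50000 * r0)
  nT : n ^ 20 ≤ X ^ (3 * T)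
  en : ∀ m : ℝ, X ≤ m → Real.exp (-m) * n ^ 40 ≤ 1
  ptX : 8 * (a : ℝ) ^ 2 * T * M.pt ≤ 1 / X ^ 4

/-- Hypotheses of (3.4) on the pair `x, y`, forbidden set `W` (`D_0` included). -/
structure LM.PH (M : LM V Val a) (X q : ℝ) (W : V → Prop) (x y : V) : Prop where
  ne : x ≠ y
  f0 : (9 / 10 : ℝ) * q ≤ M.fk 0 a x y
  pos : ∀ j u e, M.P u e = 0 → M.kap j u e = 0
  dis : sumL a (fun z => M.pw 0 x z y * ind (∃ (i j : ℕ) (s s' : V × Val) (w : V), i ≤ j ∧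
      z[i]? = some s ∧ z[j]? = some s' ∧ (s.1 = w ∨ M.ex s.1 s.2 = w) ∧
      ((i < j ∧ (s'.1 = w ∨ M.ex s'.1 s'.2 = w)) ∨ w = x ∨ w = y))) ≤ M.fk 0 a x y / 40
  wz : sumL a (fun z => M.pw 0 x z y * ind (∃ (i : ℕ) (s : V × Val) (w : V), z[i]? = some s ∧
      (s.1 = w ∨ M.ex s.1 s.2 = w) ∧ W w)) ≤ M.fk 0 a x y / 40
  hh : ∀ w, sumL a (fun z => M.pw 0 x z y * ind (∃ (i : ℕ) (s : V × Val), z[i]? = some s ∧
      (s.1 = w ∨ M.ex s.1 s.2 = w))) ≤ X ^ 2 / M.b * M.fk 0 a x y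

end defs

/-! ### Statements -/

/-- SUML: calculus of `sumL`. -/
def SUML_S : Prop :=
  ∀ (S : Type u) [Fintype S],
    (∀ (m n : ℕ) (F : List S → ℝ),
      sumL (m + n) F = sumL m (fun l => sumL n (fun l' => F (l ++ l')))) ∧
    (∀ (n : ℕ) (F H : List S → ℝ), (∀ l, l.length = n → F l ≤ H l) → sumL n F ≤ sumL n H) ∧
    (∀ (n : ℕ) (F H : List S → ℝ), sumL n (fun l => F l + H l) = sumL n F + sumL n H) ∧
    (∀ (n : ℕ) (F : List S → ℝ) (c : ℝ), sumL n (fun l => c * F l) = c * sumL n F) ∧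
    (∀ (n : ℕ) (F : List S → ℝ), (∀ l, l.length = n → 0 ≤ F l) → 0 ≤ sumL n F) ∧
    (∀ (n : ℕ) (F : List S → ℝ), sumL n F = ∑ z : Fin n → S, F (List.ofFn z)) ∧
    (∀ (κ : Type v) [Fintype κ] (n : ℕ) (F : κ → List S → ℝ),
      sumL n (fun l => ∑ i, F i l) = ∑ i, sumL n (F i)) ∧
    (∀ (n : ℕ) (F H : List S → ℝ), (∀ l, l.length = n → F l = H l) → sumL n F = sumL n H)

/-- PWC: concatenation of paths. -/
def PWC_S : Prop :=
  ∀ (V : Type u) (Val : Type v) [Fintype V] [Fintype Val] [DecidableEq V] (a : ℕ) (M : LM V Val a),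
    (∀ (l l' : List (V × Val)) (s : V × Val) (j : ℕ) (x y : V),
      M.pw j x (l ++ s :: l') y =
        M.pw j x l s.1 * M.kap (j + l.length) s.1 s.2 *
          M.pw (j + l.length + 1) (M.ex s.1 s.2) l' y) ∧
    (∀ (ω : Fld a V Val) (l l' : List (V × Val)) (j : ℕ),
      M.xw ω j (l ++ l') = M.xw ω j l * M.xw ω (j + l.length) l') ∧
    (∀ (l : List (V × Val)) (j : ℕ) (x y : V), 0 ≤ M.pw j x l y) ∧
    (∀ (ω : Fld a V Val) (l : List (V × Val)) (j : ℕ), 0 ≤ M.xw ω j l) ∧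
    (∀ j r x y, 0 ≤ M.fk j r x y) ∧
    (∀ j r r' x y, M.fk j (r + 1 + r') x y =
      ∑ s : V × Val, M.fk j r x s.1 * M.kap (j + r) s.1 s.2 *
        M.fk (j + r + 1) r' (M.ex s.1 s.2) y)

/-- EXX: expectations of label weights. -/
def EXX_S : Prop :=
  ∀ (V : Type u) (Val : Type v) [Fintype V] [Fintype Val] [DecidableEq V] (a : ℕ) (M : LM V Val a),
    IsPr M.law ∧
    (∀ (z : List (V × Val)) (j : ℕ), j + z.length ≤ a → (∀ s ∈ z, M.P s.1 s.2 ≠ 0) →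
      Ex M.law (fun ω => M.xw ω j z) = 1) ∧
    (∀ (l1 l2 l3 l : List (V × Val)), l1.length + l2.length + l3.length ≤ a →
      l2.length = l.length → (∀ s ∈ l1 ++ l2 ++ l3, M.P s.1 s.2 ≠ 0) →
      (∀ s ∈ l, M.P s.1 s.2 ≠ 0) →
      Ex M.law (fun ω => M.xw ω 0 (l1 ++ l2 ++ l3) * M.xw ω l1.length l) = M.pf l2 l)

/-- SMK: the second moment bound for path kernels, (3.1)-(3.3) (see Hints1.md). -/
def SMK_S : Prop :=
  ∀ (V : Type u) (Val : Type v) [Fintype V] [Fintype Val] [DecidableEq V] (a : ℕ) (M : LM V Val a)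
    (n X q : ℝ) (L0 r0 T : ℕ), M.NH n X q r0 T → M.SB L0 r0 (X * q) →
    (∀ j u e, M.P u e = 0 → M.kap j u e = 0) →
    ∀ (i r : ℕ) (x y : V) (z : List (V × Val)), i + r ≤ a → (r0 + 2) * (L0 + 1) ≤ r →
      M.sp i → M.sp (i + r) →
      sumL r (fun z' => M.pw i x z' y * M.pg z z') ≤ M.fk i r x y + q / M.b ^ (1 / 8 : ℝ)

/-- PFG: comparison of `pf` and `pg`. -/
def PFG_S : Prop :=
  ∀ (V : Type u) (Val : Type v) [Fintype V] [Fintype Val] [DecidableEq V] (a : ℕ) (M : LM V Val a)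
    (z z' : List (V × Val)), 0 ≤ M.pf z z' ∧ M.pf z z' ≤ M.pg z z' ∧ 1 ≤ M.pg z z'

/-- LOW: (3.4). -/
def LOW_S : Prop :=
  ∀ (V : Type u) (Val : Type v) [Fintype V] [Fintype Val] [DecidableEq V] (a : ℕ) (M : LM V Val a)
    (X q : ℝ) (L0 r0 T : ℕ) (W : V → Prop) (x y : V), M.NH (Fintype.card V) X q r0 T →
    M.SB L0 r0 (X * q) → M.PH X q W x y →
    Pr (piW (fun _ : Fin T => M.law))
      (fun ω => ∀ t, M.Zg ω W (X ^ 5 * q) t x y < M.fk 0 a x y / 4) ≤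
      1 / (Fintype.card V : ℝ) ^ 14

/-- MASS: (3.5). -/
def MASS_S : Prop :=
  ∀ (V : Type u) (Val : Type v) [Fintype V] [Fintype Val] [DecidableEq V] (a : ℕ) (M : LM V Val a)
    (X q : ℝ) (r0 T : ℕ), M.NH (Fintype.card V) X q r0 T →
    Pr M.law (fun ω => ¬ M.massOK X ω) ≤ 1 / (Fintype.card V : ℝ) ^ 14

/-- RLAW: (3.6): the transport law and its marginal bounds. -/
def RLAW_S : Prop :=
  ∀ (V : Type u) (Val : Type v) [Fintype V] [Fintype Val] [DecidableEq V] (a : ℕ) (M : LM V Val a)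
    (X q : ℝ) (T : ℕ) (W : V → Prop) (ω : Fin T → Fld a V Val) (t : Fin T) (x y : V), 1 ≤ X → 0 < q →
    (9 / 10 : ℝ) * q ≤ M.fk 0 a x y →
    M.fk 0 a x y / 4 ≤ M.Zg ω W (X ^ 5 * q) t x y →
    (∀ z, 0 ≤ M.R ω W (X ^ 5 * q) t x y z) ∧
    sumL a (M.R ω W (X ^ 5 * q) t x y) = 1 ∧
    (∀ z, z.length = a → M.R ω W (X ^ 5 * q) t x y z ≠ 0 → M.good ω W (X ^ 5 * q) t x y z ∧
      M.pw 0 x z y ≠ 0 ∧ M.xw (ω t) 0 z ≠ 0) ∧
    (∀ (j : ℕ) (s : V × Val), j ≤ M.jc →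
      sumL a (fun z => M.R ω W (X ^ 5 * q) t x y z * ind (z[j]? = some s)) ≤
        5 * X ^ 5 * M.Fn (ω t) 0 (M.C 0 x) j s.1 * M.lw (ω t) j s.1 s.2 *
          M.Gn (ω t) (fun _ => 1) (M.jc - j) (j + 1) (M.ex s.1 s.2)) ∧
    (∀ (j : ℕ) (s : V × Val), M.jc ≤ j → j < a →
      sumL a (fun z => M.R ω W (X ^ 5 * q) t x y z * ind (z[j]? = some s)) ≤
        5 * X ^ 5 * M.Fn (ω t) M.jc (fun _ => 1) (j - M.jc) s.1 * M.lw (ω t) j s.1 s.2 *
          M.Gn (ω t) (fun v => M.C a v y) (a - 1 - j) (j + 1) (M.ex s.1 s.2)) ∧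
    (∀ (j : ℕ) (s s' : V × Val), j + 1 ≤ M.jc →
      sumL a (fun z => M.R ω W (X ^ 5 * q) t x y z * ind (z[j]? = some s ∧
        z[j + 1]? = some s')) ≤
        5 * X ^ 5 * M.Fn (ω t) 0 (M.C 0 x) j s.1 * M.lw (ω t) j s.1 s.2 *
          M.C (j + 1) (M.ex s.1 s.2) s'.1 * M.lw (ω t) (j + 1) s'.1 s'.2 *
          M.Gn (ω t) (fun _ => 1) (M.jc - j - 1) (j + 2) (M.ex s'.1 s'.2)) ∧
    (∀ (j : ℕ) (s s' : V × Val), M.jc ≤ j → j + 1 < a →
      sumL a (fun z => M.R ω W (X ^ 5 * q) t x y z * ind (z[j]? = some s ∧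
        z[j + 1]? = some s')) ≤
        5 * X ^ 5 * M.Fn (ω t) M.jc (fun _ => 1) (j - M.jc) s.1 * M.lw (ω t) j s.1 s.2 *
          M.C (j + 1) (M.ex s.1 s.2) s'.1 * M.lw (ω t) (j + 1) s'.1 s'.2 *
          M.Gn (ω t) (fun v => M.C a v y) (a - 2 - j) (j + 2) (M.ex s'.1 s'.2))

/-- LIN: linearity and monotonicity of `Fn` and `Gn`. -/
def LINFG_S : Prop :=
  ∀ (V : Type u) (Val : Type v) [Fintype V] [Fintype Val] [DecidableEq V] (a : ℕ) (M : LM V Val a)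
    (ω : Fld a V Val),
    (∀ (i n : ℕ) (F H : V → ℝ), (∀ v, 0 ≤ F v) → (∀ v, F v ≤ H v) →
      ∀ v, 0 ≤ M.Fn ω i F n v ∧ M.Fn ω i F n v ≤ M.Fn ω i H n v) ∧
    (∀ (i n : ℕ) (F : V → ℝ) (c : ℝ) (v : V),
      M.Fn ω i (fun v => c * F v) n v = c * M.Fn ω i F n v) ∧
    (∀ (κ : Type) (s : Finset κ) (i n : ℕ) (F : κ → V → ℝ) (v : V),
      M.Fn ω i (fun v => ∑ k ∈ s, F k v) n v = ∑ k ∈ s, M.Fn ω i (F k) n v) ∧
    (∀ (i n : ℕ) (F H : V → ℝ), (∀ v, 0 ≤ F v) → (∀ v, F v ≤ H v) →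
      ∀ v, 0 ≤ M.Gn ω F n i v ∧ M.Gn ω F n i v ≤ M.Gn ω H n i v) ∧
    (∀ (i n : ℕ) (F : V → ℝ) (c : ℝ) (v : V),
      M.Gn ω (fun v => c * F v) n i v = c * M.Gn ω F n i v) ∧
    (∀ (κ : Type) (s : Finset κ) (i n : ℕ) (F : κ → V → ℝ) (v : V),
      M.Gn ω (fun v => ∑ k ∈ s, F k v) n i v = ∑ k ∈ s, M.Gn ω (F k) n i v)

/-- LOWA: Chebyshev for a fixed set `AA` of walks. -/
def LOWA_S : Prop :=
  ∀ (V : Type u) (Val : Type v) [Fintype V] [Fintype Val] [DecidableEq V] (a : ℕ) (M : LM V Val a)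
    (X q : ℝ) (L0 r0 T : ℕ) (x y : V) (AA : List (V × Val) → Prop) (d : ℝ),
    M.NH (Fintype.card V) X q r0 T → M.SB L0 r0 (X * q) →
    (∀ j u e, M.P u e = 0 → M.kap j u e = 0) → 0 < d →
    Pr M.law (fun ω => sumL a (fun z => M.pw 0 x z y * M.xw ω 0 z * ind (AA z)) ≤
      sumL a (fun z => M.pw 0 x z y * ind (AA z)) - d) ≤
      M.fk 0 a x y * (q / M.b ^ (1 / 8 : ℝ)) / d ^ 2

/-- `z` has pairwise disjoint vertex sets. -/
def LM.vdis {V : Type u} {Val : Type v} [Fintype V] [Fintype Val] {a : ℕ} (M : LM V Val a)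
    (z : List (V × Val)) : Prop :=
  ∀ (i j : ℕ) (s s' : V × Val), i < j → z[i]? = some s → z[j]? = some s' →
    ∀ w, (s.1 = w ∨ M.ex s.1 s.2 = w) → ¬ (s'.1 = w ∨ M.ex s'.1 s'.2 = w)

/-- LOWB: expected unclean weight. -/
def LOWB_S : Prop :=
  ∀ (V : Type u) (Val : Type v) [Fintype V] [Fintype Val] [DecidableEq V] (a : ℕ) (M : LM V Val a)
    (x y : V), (∀ j u e, M.P u e = 0 → M.kap j u e = 0) →
    Ex M.law (fun ω => sumL a (fun z => M.pw 0 x z y * M.xw ω 0 z * ind (M.vdis z ∧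
      ∃ (i j : ℕ) (s : V × Val) (w u : V) (e : Val), z[i]? = some s ∧
        (s.1 = w ∨ M.ex s.1 s.2 = w) ∧ val ω j u = some e ∧ (u = w ∨ M.ex u e = w) ∧
        ¬ (j = i ∧ (u, e) = s)))) ≤ 2 * (a : ℝ) ^ 2 * M.pt * M.fk 0 a x y

/-- LOWC: expected truncated weight. -/
def LOWC_S : Prop :=
  ∀ (V : Type u) (Val : Type v) [Fintype V] [Fintype Val] [DecidableEq V] (a : ℕ) (M : LM V Val a)
    (X q : ℝ) (L0 r0 T : ℕ) (x y : V),
    M.NH (Fintype.card V) X q r0 T → M.SB L0 r0 (X * q) →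
    (∀ j u e, M.P u e = 0 → M.kap j u e = 0) →
    Ex M.law (fun ω => sumL a (fun z => M.pw 0 x z y * M.xw ω 0 z *
      ind (∃ s, z[M.jc]? = some s ∧ X ^ 5 * q < M.ZX ω x s.1))) ≤
        2 / X ^ 4 * M.fk 0 a x y ∧
    Ex M.law (fun ω => sumL a (fun z => M.pw 0 x z y * M.xw ω 0 z *
      ind (∃ s, z[M.jc]? = some s ∧ X ^ 5 * q < M.ZY ω (M.ex s.1 s.2) y))) ≤
        2 / X ^ 4 * M.fk 0 a x y

/-- The weight of touched vertices: `h` summed over the vertices touched by the fields `ω`,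
counted with multiplicity. -/
noncomputable def LM.tw {V : Type u} {Val : Type v} [Fintype V] [Fintype Val] {a : ℕ} (M : LM V Val a)
    (h : V → ℝ) (ω : Fld a V Val) : ℝ :=
  ∑ j : Fin a, ∑ u, ∑ e, ind (ω j u = some e) * (h u + h (M.ex u e))

/-- LOWD: the touched vertices are light for `h`. -/
def LOWD_S : Prop :=
  ∀ (V : Type u) (Val : Type v) [Fintype V] [Fintype Val] [DecidableEq V] (a : ℕ) (M : LM V Val a)
    (T : ℕ) (h : V → ℝ) (S h1 m : ℝ), (∀ v, 0 ≤ h v) → (∀ v, h v ≤ h1) → 0 < h1 → 0 < m →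
    ∑ v, h v ≤ S → 2 * T * a * M.pt * S ≤ m →
    Pr (piW (fun _ : Fin T => M.law)) (fun ω => 2 * m ≤ ∑ t, M.tw h (ω t)) ≤
      Real.exp (-(m / (8 * h1)))

/-- MASSA: one step and two step bounds. -/
def MASSA_S : Prop :=
  ∀ (V : Type u) (Val : Type v) [Fintype V] [Fintype Val] [DecidableEq V] (a : ℕ) (M : LM V Val a)
    (X q : ℝ) (r0 T : ℕ), M.NH (Fintype.card V) X q r0 T →
    Pr M.law (fun ω => ¬ ((∀ j v, j < a →
        (M.sp (j + 1) → M.Top ω j (fun _ => 1) v ≤ 1 + 1 / M.b ^ (1 / 4 : ℝ)) ∧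
        M.Top ω j (fun _ => 1) v ≤ M.H0 * X ∧
        (M.sp j → M.Gop ω j (fun _ => 1) v ≤ 1 + 1 / M.b ^ (1 / 4 : ℝ)) ∧
        M.Gop ω j (fun _ => 1) v ≤ M.H0 * X) ∧
      (∀ j v, j + 1 < a →
        (M.sp (j + 2) → M.Top ω (j + 1) (M.Top ω j (fun _ => 1)) v ≤
          1 + 2 / M.b ^ (1 / 4 : ℝ)) ∧
        (M.sp j → M.Gop ω j (M.Gop ω (j + 1) (fun _ => 1)) v ≤
          1 + 2 / M.b ^ (1 / 4 : ℝ))))) ≤ 1 / (Fintype.card V : ℝ) ^ 14

/-- STAGE: a good outcome of the fields of `T` colours for a finite family of models `M i` with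
common law, and for finitely many test functions `h`. -/
def STAGE_S : Prop :=
  ∀ (V : Type u) (Val : Type v) [Fintype V] [Fintype Val] [DecidableEq V] (a : ℕ) (κ : Type)
    [Fintype κ] [Nonempty κ] (M : κ → LM V Val a) (X q : ℝ) (L0 r0 T : ℕ) (W : κ → V → Prop)
    (PP : κ → V → V → Prop) (P0 : V → Val → ℝ) (ex0 : V → Val → V),
    (∀ i, (M i).P = P0) → (∀ i, (M i).ex = ex0) →
    (Fintype.card κ : ℝ) ≤ Fintype.card V →
    (∀ i, (M i).NH (Fintype.card V) X q r0 T) → (∀ i, (M i).SB L0 r0 (X * q)) →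
    (∀ i x y, PP i x y → (M i).PH X q (W i) x y) →
    ∀ (ι : Type w) [Fintype ι] (h : ι → V → ℝ) (S : ι → ℝ),
    (Fintype.card ι : ℝ) ≤ (Fintype.card V : ℝ) ^ 6 →
    (∀ i v, 0 ≤ h i v ∧ ∀ j, h i v ≤ X ^ 3 / (M j).b) → (∀ i, ∑ v, h i v ≤ S i ∧ 1 ≤ S i) →
    (∀ i, 1 / X ^ 4000 ≤ (M i).pt) →
    ∃ ω : Fin T → Fld a V Val,
      (∀ t j u e, val (ω t) j u = some e → P0 u e ≠ 0) ∧
      (∀ i x y, PP i x y → ∃ t, (M i).fk 0 a x y / 4 ≤ (M i).Zg ω (W i) (X ^ 5 * q) t x y) ∧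
      (∀ i t, (M i).massOK X (ω t)) ∧
      (∀ i j, ∑ t, (M j).tw (h i) (ω t) ≤ X * (M j).pt * S i)

end Pool.Agent.Lib.MP_688fd0_co.TE
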