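import Pool.Agent.Lib.MP_688fd0_co.TE.Iface3

/-!
# Theorem E, statements of the modules of chapter 4 (instances, reservoir, gadgets)
-/

namespace Pool.Agent.Lib.MP_688fd0_co.TE

universe u v w

section defs

variable {G : Type u} [Group G] [Fintype G] [DecidableEq G]

/-- Basic kernel with descriptor `(τ, par, transposed, i, n)`. -/
noncomputable def Ctx.bas (c : Ctx G) (p : Bool × Bool × Bool × ℕ × ℕ) : Matrix G G ℝ :=
  if p.2.2.1 then (c.K p.1 p.2.1 p.2.2.2.1 p.2.2.2.2).transpose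
  else c.K p.1 p.2.1 p.2.2.2.1 p.2.2.2.2

/-- Products of at most `N` basic kernels. -/
def Ctx.PK (c : Ctx G) (N : ℕ) (M : Matrix G G ℝ) : Prop :=
  ∃ l : List (Bool × Bool × Bool × ℕ × ℕ), l.length ≤ N ∧
    (∀ p ∈ l, p.2.2.2.1 ≤ 6 * c.k + 1 ∧ p.2.2.2.2 ≤ 6 * c.k + 1) ∧ M = (l.map c.bas).prod

/-- Test kernels: products of at most `N` basic kernels with entries at most `1/b`. -/
def Ctx.TK (c : Ctx G) (N : ℕ) (M : Matrix G G ℝ) : Prop :=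
  c.PK N M ∧ ∀ x y, M x y ≤ 1 / c.b

/-- The set `W` is light for all test kernels. -/
def Ctx.Light (c : Ctx G) (N : ℕ) (W : G → Prop) (δ : ℝ) : Prop :=
  ∀ M, c.TK N M → ∀ y, ∑ x, ind (W x) * M y x ≤ δ

/-- Label densities. -/
noncomputable def Ctx.ζ (c : Ctx G) (τ : Bool) : ℝ := if τ then 1 / c.X ^ 3000 else 1 / c.X ^ 400

/-- Load constants `Λ_τ`. -/
noncomputable def Ctx.Lam (c : Ctx G) (τ : Bool) : ℝ := if τ then c.X ^ 6010 else c.X ^ 810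

/-- Densities of gadget vertices. -/
noncomputable def Ctx.del (c : Ctx G) (τ : Bool) : ℝ :=
  if τ then 1 / c.X ^ 2990 else 1 / c.X ^ 390

/-- `M` is the model RES(τ) with density `ζ`. -/
structure Ctx.IsRes (c : Ctx G) (τ : Bool) (ζ : ℝ) (M : LM G G (3 * c.k)) : Prop where
  jc : 2 * M.jc + 2 = 3 * c.k
  P : ∀ u t, M.P u t = ζ * WM c.B c.C τ 1 t
  ex : ∀ u t, M.ex u t = u * t
  C : ∀ j u v, M.C j u v = cO c.B c.C τ (2 * j + 1) u v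
  kap : ∀ j u t, M.kap j u t = cO c.B c.C τ (2 * j + 2) 1 t
  H0 : M.H0 = 2 / ζ
  b : M.b = c.b
  pt : M.pt = 2 * ζ
  sp : ∀ j, M.sp j ↔ ¬ 3 ∣ (2 * j + 1)

/-- `M` is the model LEV(τ,i) with activity `ρ` and `m` levels. Slot `j` is position `j+1`. -/
structure Ctx.IsLev (c : Ctx G) (τ : Bool) (ρ : ℝ) (m : ℕ) [NeZero m] (i : ZMod m)
    (M : LM G (ZMod m) (6 * c.k)) : Prop where
  jc : M.jc = 3 * c.k
  P : ∀ u l, M.P u l = ρ / m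
  ex : ∀ u l, M.ex u l = u
  C : ∀ j u v, M.C j u v = cO c.B c.C τ (j + 1) u v
  kap : ∀ j u l, M.kap j u l = ind (l = if Even j then i + 1 else i)
  H0 : M.H0 = m / ρ
  b : M.b = c.b
  pt : M.pt = ρ
  sp : ∀ j, M.sp j ↔ (τ = true → ¬ 3 ∣ (j + 1))

/-- The reservoir (4.1), (4.2): R-edges and laws on R-links. -/
structure Resv (c : Ctx G) (N : ℕ) where
  E : Bool → Finset (G × G)
  Rl : Bool → G → G → (Fin (3 * c.k) → G × G) → ℝ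
  lett : ∀ τ, ∀ e ∈ E τ, e.1⁻¹ * e.2 ∈ Lt c.B c.C τ
  disj : ∀ τ τ' e e', e ∈ E τ → e' ∈ E τ' → (τ, e) ≠ (τ', e') →
    e.1 ≠ e'.1 ∧ e.1 ≠ e'.2 ∧ e.2 ≠ e'.1 ∧ e.2 ≠ e'.2
  light : ∀ τ M, c.TK N M → ∀ y, ∑ e ∈ E τ, (M y e.1 + M y e.2) ≤ c.X * (2 * c.ζ τ)
  law : ∀ τ x y, x ≠ y → c.adm τ true 9 x y → IsPr (Rl τ x y)
  supp : ∀ τ x y, x ≠ y → c.adm τ true 9 x y → ∀ z, Rl τ x y z ≠ 0 →
    (∀ j, z j ∈ E τ) ∧ Function.Injective z ∧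
    (∀ j, (z j).1 ≠ x ∧ (z j).1 ≠ y ∧ (z j).2 ≠ x ∧ (z j).2 ≠ y) ∧
    (∀ j : Fin (3 * c.k), (j : ℕ) = 0 → x⁻¹ * (z j).1 ∈ Lt c.B c.C τ) ∧
    (∀ j j' : Fin (3 * c.k), (j' : ℕ) = j + 1 → (z j).2⁻¹ * (z j').1 ∈ Lt c.B c.C τ) ∧
    (∀ j : Fin (3 * c.k), (j : ℕ) + 1 = 3 * c.k → (z j).2⁻¹ * y ∈ Lt c.B c.C τ)
  r2 : ∀ τ x y, x ≠ y → c.adm τ true 9 x y → ∀ e,
    Pr (Rl τ x y) (fun z => ∃ j, z j = e) ≤ c.X ^ 6010 / c.b
  r3 : ∀ τ (π : G → G → ℝ) (p : ℝ), (∀ x y, 0 ≤ π x y) →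
    (∀ x y, π x y ≠ 0 → x ≠ y ∧ c.adm τ true 9 x y) → (∀ x, ∑ y, π x y ≤ p) →
    (∀ y, ∑ x, π x y ≤ p) → ∀ e,
    ∑ x, ∑ y, π x y * Pr (Rl τ x y) (fun z => ∃ j, z j = e) ≤ p * c.Lam τ

/-- Configurations of gadgets: cycle walk, odd rungs (rung `i+1` joins `w_{2i+2}` to `w_{2i+5}`),
last rung (joins `w_{6k-2}` to `w_{6k}`). -/
abbrev Ctx.Cfg (c : Ctx G) : Type u :=
  (Fin (c.len true + 1) → G) × (Fin (3 * c.k - 2) → Fin (c.len true + 1) → G) ×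
    (Fin (c.len false + 1) → G)

/-- Vertex of the cycle walk with index `i` (junk value `1` if out of range). -/
def Ctx.cy (c : Ctx G) (γ : c.Cfg) (i : ℕ) : G :=
  if h : i < c.len true + 1 then γ.1 ⟨i, h⟩ else 1

/-- The law of the configuration of the label `(r, r')` (4.2). -/
noncomputable def Ctx.Γ (c : Ctx G) (τ : Bool) (e : G × G) (γ : c.Cfg) : ℝ :=
  c.WL τ true e.2 e.1 γ.1 *
    (∏ i : Fin (3 * c.k - 2), c.WL τ true (c.cy γ (2 * i + 2)) (c.cy γ (2 * i + 5)) (γ.2.1 i)) *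
    c.WL τ false (c.cy γ (6 * c.k - 2)) (c.cy γ (6 * c.k)) γ.2.2

/-- Positions of a gadget. -/
abbrev Ctx.Pos (c : Ctx G) : Type :=
  Fin (6 * c.k) ⊕ (Fin (3 * c.k - 2) × Fin (6 * c.k)) ⊕ Fin (6 * c.k - 1)

/-- The vertex at a position: `inl i` is `w_{i+1}`. -/
def Ctx.vx (c : Ctx G) (γ : c.Cfg) : c.Pos → G
  | Sum.inl i => γ.1 ⟨i + 1, by have := i.2; simp only [Ctx.len, if_true]; omega⟩
  | Sum.inr (Sum.inl (i, p)) =>
    γ.2.1 i ⟨p + 1, by have := p.2; simp only [Ctx.len, if_true]; omega⟩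
  | Sum.inr (Sum.inr p) =>
    γ.2.2 ⟨p + 1, by have := p.2; simp only [Ctx.len]; simp; omega⟩

/-- Consecutive elements of the list differ by letters of `L`. -/
def steps (L : Finset G) (l : List G) : Prop := l.IsChain (fun a b => a⁻¹ * b ∈ L)

/-- A gadget for the R-edge `e`: a vertex set, ends, absorbing and non-absorbing path. -/
structure GadOK (L : Finset G) (e : G × G) (Vs : Finset G) (i o : G) (Pa Pn : List G) : Prop where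
  ne : i ≠ o
  e1 : e.1 ∈ Vs
  e2 : e.2 ∈ Vs
  i1 : i ≠ e.1 ∧ i ≠ e.2 ∧ o ≠ e.1 ∧ o ≠ e.2
  an : Pa.Nodup
  av : ∀ v, v ∈ Pa ↔ v ∈ Vs
  as : steps L Pa
  ah : Pa.head? = some i
  al : Pa.getLast? = some o
  nn : Pn.Nodup
  nv : ∀ v, v ∈ Pn ↔ v ∈ Vs ∧ v ≠ e.1 ∧ v ≠ e.2
  ns : steps L Pn
  nh : Pn.head? = some i
  nl : Pn.getLast? = some o

/-- Reservoir with gadgets (4.7). -/
structure Gad (c : Ctx G) (N : ℕ) where
  res : Resv c N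
  Vs : Bool → G × G → Finset G
  i : Bool → G × G → G
  o : Bool → G × G → G
  Pa : Bool → G × G → List G
  Pn : Bool → G × G → List G
  ok : ∀ τ, ∀ e ∈ res.E τ, GadOK (Lt c.B c.C τ) e (Vs τ e) (i τ e) (o τ e) (Pa τ e) (Pn τ e)
  disj : ∀ τ τ' e e', e ∈ res.E τ → e' ∈ res.E τ' → (τ, e) ≠ (τ', e') →
    Disjoint (Vs τ e) (Vs τ' e')
  light : ∀ τ, c.Light N (fun w => ∃ e ∈ res.E τ, w ∈ Vs τ e) (c.del τ)

end defs

/-- The good outcomes of the fields of `T` colours, for a family of models `M i` with common field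
law and pairs `PP i`, and test functions `h`. -/
structure StageOK {V : Type u} {Val : Type v} [Fintype V] [Fintype Val] [DecidableEq V] {a : ℕ}
    {κ : Type} {ι : Type w} (M : κ → LM V Val a) (X q : ℝ) {T : ℕ} (W : κ → V → Prop)
    (PP : κ → V → V → Prop) (h : ι → V → ℝ) (S : ι → ℝ) (ω : Fin T → Fld a V Val) : Prop where
  pos : ∀ i t j u e, val (ω t) j u = some e → (M i).P u e ≠ 0
  low : ∀ i x y, PP i x y → ∃ t, (M i).fk 0 a x y / 4 ≤ (M i).Zg ω (W i) (X ^ 5 * q) t x y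
  mass : ∀ i t, (M i).massOK X (ω t)
  tw : ∀ i j, ∑ t, (M j).tw (h i) (ω t) ≤ X * (M j).pt * S i

/-! ### Statements -/

/-- STAGEP: the form of STAGE with probabilities: almost all outcomes of the fields are good
(same proof as STAGE). -/
def STAGEP_S : Prop :=
  ∀ (V : Type u) (Val : Type v) [Fintype V] [Fintype Val] [DecidableEq V] (a : ℕ) (κ : Type)
    [Fintype κ] [Nonempty κ] (M : κ → LM V Val a) (X q : ℝ) (L0 r0 T : ℕ) (W : κ → V → Prop)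
    (PP : κ → V → V → Prop) (i0 : κ),
    (∀ i, (M i).P = (M i0).P) → (Fintype.card κ : ℝ) ≤ Fintype.card V →
    (∀ i, (M i).NH (Fintype.card V) X q r0 T) → (∀ i, (M i).SB L0 r0 (X * q)) →
    (∀ i x y, PP i x y → (M i).PH X q (W i) x y) →
    ∀ (ι : Type w) [Fintype ι] (h : ι → V → ℝ) (S : ι → ℝ),
    (Fintype.card ι : ℝ) ≤ (Fintype.card V : ℝ) ^ 6 →
    (∀ i v, 0 ≤ h i v ∧ ∀ j, h i v ≤ X ^ 3 / (M j).b) → (∀ i, ∑ v, h i v ≤ S i ∧ 1 ≤ S i) →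
    (∀ i, 1 / X ^ 4000 ≤ (M i).pt) →
    Pr (piW (fun _ : Fin T => (M i0).law)) (fun ω => ¬ StageOK M X q W PP h S ω) ≤
      1 / (Fintype.card V : ℝ) ^ 2

/-- PKS: calculus of `PK`, `TK`. -/
def PKS_S : Prop :=
  ∀ (G : Type u) [Group G] [Fintype G] [DecidableEq G] (c : Ctx G),
    (∀ N M, c.PK N M → c.PK N M.transpose) ∧
    (∀ N N' M M', c.PK N M → c.PK N' M' → c.PK (N + N') (M * M')) ∧
    (∀ N N' M, N ≤ N' → c.PK N M → c.PK N' M) ∧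
    (∀ τ par i n, i ≤ 6 * c.k + 1 → n ≤ 6 * c.k + 1 → c.PK 1 (c.K τ par i n)) ∧
    c.PK 1 (UM c.B) ∧ (∀ τ, c.PK 1 (WM c.B c.C τ)) ∧
    (∀ N M, c.PK N M → DS M) ∧
    (∀ N M, c.TK N M → c.TK N M.transpose) ∧
    (∀ N N' M M', c.TK N M → c.PK N' M' → c.TK (N + N') (M * M') ∧ c.TK (N' + N) (M' * M)) ∧
    (∀ N N' M, N ≤ N' → c.TK N M → c.TK N' M) ∧
    c.TK 1 (UM c.B) ∧
    (∀ τ par j, 1 ≤ j → j ≤ c.len par → c.TK 1 (c.K τ par 0 j)) ∧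
    (∀ τ par j, j < c.len par → c.TK 1 (c.K τ par j (c.len par - j)).transpose) ∧
    (∀ N, N ≤ 40 → ∃ (m : ℕ) (f : Fin m → Matrix G G ℝ), (m : ℝ) ≤ c.X ∧
      (∀ i, c.TK N (f i)) ∧ ∀ M, c.TK N M → ∃ i, f i = M)

/-- RESM: existence and properties of the model RES. -/
def RESM_S : Prop :=
  ∀ (G : Type u) [Group G] [Fintype G] [DecidableEq G] (c : Ctx G) (τ : Bool),
    ∃ M : LM G G (3 * c.k), c.IsRes τ (c.ζ τ) M ∧
      M.NH (Fintype.card G) c.X (c.q τ) c.r0 c.T ∧ M.SB c.L0 c.r0 (c.X * c.q τ) ∧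
      (∀ i r x y, i + r ≤ 3 * c.k → M.fk i r x y = c.K τ true (2 * i) (2 * r + 1) x y)

/-- LEVM: existence and properties of the models LEV. -/
def LEVM_S : Prop :=
  ∀ (G : Type u) [Group G] [Fintype G] [DecidableEq G] (c : Ctx G) (τ : Bool) (m : ℕ) [NeZero m]
    (i : ZMod m), c.X ^ 1000 ≤ m → (m : ℝ) ≤ 2 * c.X ^ 1000 →
    ∃ M : LM G (ZMod m) (6 * c.k), c.IsLev τ (1 / c.X ^ 5) m i M ∧
      M.NH (Fintype.card G) c.X (c.q τ) c.r0 c.T ∧ M.SB c.L0 c.r0 (c.X * c.q τ) ∧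
      (∀ i r x y, i + r ≤ 6 * c.k → M.fk i r x y = c.K τ true i (r + 1) x y)

/-- PHR: the pair hypotheses for RES. -/
def PHR_S : Prop :=
  ∀ (G : Type u) [Group G] [Fintype G] [DecidableEq G] (c : Ctx G) (τ : Bool)
    (M : LM G G (3 * c.k)) (ζ : ℝ), 0 < ζ → c.IsRes τ ζ M →
    (∀ i r x y, i + r ≤ 3 * c.k → M.fk i r x y = c.K τ true (2 * i) (2 * r + 1) x y) →
    ∀ W : G → Prop, c.Light 1 W (1 / c.X ^ 3) → ∀ x y, x ≠ y → c.adm τ true 100 x y →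
      M.PH c.X (c.q τ) W x y

/-- PHL: the pair hypotheses for LEV. -/
def PHL_S : Prop :=
  ∀ (G : Type u) [Group G] [Fintype G] [DecidableEq G] (c : Ctx G) (τ : Bool) (m : ℕ) [NeZero m]
    (i : ZMod m) (M : LM G (ZMod m) (6 * c.k)) (ρ : ℝ), 0 < ρ → c.IsLev τ ρ m i M →
    (∀ i r x y, i + r ≤ 6 * c.k → M.fk i r x y = c.K τ true i (r + 1) x y) →
    ∀ W : G → Prop, c.Light 1 W (1 / c.X ^ 3) → ∀ x y, x ≠ y → c.adm τ true 100 x y →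
      M.PH c.X (c.q τ) W x y

/-- LOADS: (3.7) in the abstract model. `tc x y` is the colour used for the pair. -/
def LOADS_S : Prop :=
  ∀ (V : Type u) (Val : Type v) [Fintype V] [Fintype Val] [DecidableEq V] (a : ℕ)
    (M : LM V Val a) (X q : ℝ) (T : ℕ) (W : V → Prop) (ω : Fin T → Fld a V Val)
    (tc : V → V → Fin T) (PP : V → V → Prop), 10 ^ 6 ≤ X → 0 < q → (∀ t, M.massOK X (ω t)) →
    (∀ x y, PP x y → (9 / 10 : ℝ) * q ≤ M.fk 0 a x y ∧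
      M.fk 0 a x y / 4 ≤ M.Zg ω W (X ^ 5 * q) (tc x y) x y) →
    (∀ x y, PP x y → ∀ (j : ℕ) (s : V × Val), j < a →
      sumL a (fun z => M.R ω W (X ^ 5 * q) (tc x y) x y z * ind (z[j]? = some s)) ≤
        X ^ 8 * M.H0 ^ 2 / M.b) ∧
    (∀ (π : V → V → ℝ) (p : ℝ), (∀ x y, 0 ≤ π x y) → (∀ x y, π x y ≠ 0 → PP x y) →
      (∀ x, ∑ y, π x y ≤ p) → (∀ y, ∑ x, π x y ≤ p) → ∀ (t : Fin T) (j : ℕ) (s : V × Val), j < a →
      ∑ x, ∑ y, π x y * ind (tc x y = t) *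
        sumL a (fun z => M.R ω W (X ^ 5 * q) t x y z * ind (z[j]? = some s)) ≤
        p * (X ^ 8 * M.H0 ^ 2))

/-- RES: the reservoir exists. -/
def RES_S : Prop :=
  ∀ (G : Type u) [Group G] [Fintype G] [DecidableEq G] (c : Ctx G) (N : ℕ), 1 ≤ N → N ≤ 40 →
    Nonempty (Resv c N)

/-- GLAW: (4.3): the law of gadget configurations. -/
def GLAW_S : Prop :=
  ∀ (G : Type u) [Group G] [Fintype G] [DecidableEq G] (c : Ctx G) (τ : Bool),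
    (∀ e : G × G, e.1⁻¹ * e.2 ∈ Lt c.B c.C τ → IsPr (c.Γ τ e)) ∧
    (∀ p : c.Pos, ∃ (Np : Matrix G G ℝ) (sd : Bool), c.TK 2 Np ∧
      ∀ e : G × G, e.1⁻¹ * e.2 ∈ Lt c.B c.C τ → ∀ v,
        Pr (c.Γ τ e) (fun γ => c.vx γ p = v) ≤
          4 * c.X ^ 2 * Np (if sd then e.1 else e.2) v) ∧
    (∀ e : G × G, e.1⁻¹ * e.2 ∈ Lt c.B c.C τ → ∀ p p' : c.Pos, p ≠ p' →
      Pr (c.Γ τ e) (fun γ => c.vx γ p = c.vx γ p') ≤ 2 * c.X / c.b)

/-- ABS: (4.4): a configuration with distinct vertices is a gadget. -/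
def ABS_S : Prop :=
  ∀ (G : Type u) [Group G] [Fintype G] [DecidableEq G] (c : Ctx G) (τ : Bool) (e : G × G)
    (γ : c.Cfg), e.1⁻¹ * e.2 ∈ Lt c.B c.C τ → c.Γ τ e γ ≠ 0 → Function.Injective (c.vx γ) →
    (∀ p, c.vx γ p ≠ e.1 ∧ c.vx γ p ≠ e.2) →
    ∃ (Pa Pn : List G), GadOK (Lt c.B c.C τ) e (insert e.1 (insert e.2
      (Finset.univ.image (c.vx γ)))) (c.cy γ 1) (c.cy γ 3) Pa Pn

/-- GAD: the gadgets exist. -/
def GAD_S : Prop :=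
  ∀ (G : Type u) [Group G] [Fintype G] [DecidableEq G] (c : Ctx G) (N : ℕ), 1 ≤ N → N ≤ 38 →
    Nonempty (Gad c N)

end Pool.Agent.Lib.MP_688fd0_co.TE
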